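import Pool.Agent.helper71.DSW.SpecA

/-!
# Row dsw:INC
-/

set_option autoImplicit false

namespace Pool.Agent.DSW

open Equiv Finset Function Pool.Agent.helper48.PP
open scoped ENNReal Classical

/-- There is an increasing subsequence with `j + 1` elements that ends at `i`. -/
def INC_at {n : ℕ} (w : Perm (Fin n)) (j : ℕ) (i : Fin n) : Prop :=
  ∃ f : Fin (j + 1) → Fin n, StrictMono f ∧ StrictMono (fun t => w (f t)) ∧ f (Fin.last j) = i

lemma INC_zero {n : ℕ} (w : Perm (Fin n)) (i : Fin n) : INC_at w 0 i := by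
  refine ⟨fun _ => i, ?_, ?_, rfl⟩
  · intro s t hst
    have h1 := s.2
    have h2 := t.2
    rw [Fin.lt_def] at hst
    omega
  · intro s t hst
    have h1 := s.2
    have h2 := t.2
    rw [Fin.lt_def] at hst
    omega

lemma INC_step {n : ℕ} (w : Perm (Fin n)) (j : ℕ) (i i' : Fin n) (h : INC_at w j i) (h1 : i < i')
    (h2 : w i < w i') : INC_at w (j + 1) i' := by
  obtain ⟨f, hf, hwf, hl⟩ := h
  refine ⟨fun t => if h : (t : ℕ) < j + 1 then f ⟨t, h⟩ else i', ?_, ?_, ?_⟩
  · intro s t hst
    rw [Fin.lt_def] at hst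
    have ht := t.2
    have hs : (s : ℕ) < j + 1 := by omega
    simp only [dif_pos hs]
    by_cases h3 : (t : ℕ) < j + 1
    · simp only [dif_pos h3]
      exact hf (by rw [Fin.lt_def]; exact hst)
    · simp only [dif_neg h3]
      refine lt_of_le_of_lt ?_ h1
      rw [← hl]
      exact hf.monotone (Fin.le_last _)
  · intro s t hst
    rw [Fin.lt_def] at hst
    have ht := t.2
    have hs : (s : ℕ) < j + 1 := by omega
    simp only [dif_pos hs]
    by_cases h3 : (t : ℕ) < j + 1
    · simp only [dif_pos h3]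
      exact hwf (by rw [Fin.lt_def]; exact hst)
    · simp only [dif_neg h3]
      refine lt_of_le_of_lt ?_ h2
      rw [← hl]
      exact hwf.monotone (Fin.le_last _)
  · have h9 : ¬ ((Fin.last (j + 1) : Fin (j + 1 + 1)) : ℕ) < j + 1 := by simp
    simp only [dif_neg h9]

/-- The colour of the position `i`. -/
noncomputable def INC_c (k : ℕ) {n : ℕ} (w : Perm (Fin n)) (i : Fin n) : ℕ :=
  Nat.findGreatest (fun j => INC_at w j i) k

lemma INC_lt {k n : ℕ} (w : Perm (Fin n)) (hw : ¬ Contains w (1 : Perm (Fin (k + 1)))) (i : Fin n) :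
    INC_c k w i < k := by
  have h1 : INC_c k w i ≤ k := Nat.findGreatest_le k
  have h2 : INC_at w (INC_c k w i) i := by
    unfold INC_c
    exact Nat.findGreatest_spec (P := fun j => INC_at w j i) (Nat.zero_le k) (INC_zero w i)
  rcases Nat.lt_or_ge (INC_c k w i) k with h3 | h3
  · exact h3
  · exfalso
    have h4 : INC_c k w i = k := le_antisymm h1 h3
    rw [h4] at h2
    obtain ⟨f, hf, hwf, _⟩ := h2
    apply hw
    refine ⟨f, hf, fun s t => ?_⟩
    rw [Equiv.Perm.one_apply, Equiv.Perm.one_apply]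
    exact hwf.lt_iff_lt

lemma INC_dec {k n : ℕ} (w : Perm (Fin n)) (hw : ¬ Contains w (1 : Perm (Fin (k + 1)))) (i i' : Fin n)
    (h : i < i') (hc : INC_c k w i = INC_c k w i') : w i' < w i := by
  by_contra h1
  have h2 : w i < w i' := by
    refine lt_of_le_of_ne (not_lt.1 h1) ?_
    intro h3
    exact h.ne (w.injective h3)
  have h3 : INC_at w (INC_c k w i) i := by
    unfold INC_c
    exact Nat.findGreatest_spec (P := fun j => INC_at w j i) (Nat.zero_le k) (INC_zero w i)
  have h4 := INC_step w _ i i' h3 h h2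
  have h5 : INC_c k w i + 1 ≤ INC_c k w i' := by
    unfold INC_c at h4 ⊢
    refine Nat.le_findGreatest ?_ h4
    exact INC_lt w hw i
  omega

/-- The number of positions of the same colour to the left of `i`. -/
lemma INC_card {k n : ℕ} (w : Perm (Fin n)) (hw : ¬ Contains w (1 : Perm (Fin (k + 1)))) (i : Fin n) :
    (univ.filter fun i' : Fin n => INC_c k w i' = INC_c k w i ∧ i' < i).card =
      (univ.filter fun v : Fin n => INC_c k w (w.symm v) = INC_c k w i ∧ w i < v).card := by
  apply Finset.card_bij (fun i' _ => w i')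
  · intro i' hi'
    rw [mem_filter] at hi' ⊢
    refine ⟨mem_univ _, ?_, ?_⟩
    · rw [Equiv.symm_apply_apply]; exact hi'.2.1
    · exact INC_dec w hw i' i hi'.2.2 hi'.2.1
  · intro a _ b _ hab
    exact w.injective hab
  · intro v hv
    rw [mem_filter] at hv
    refine ⟨w.symm v, ?_, Equiv.apply_symm_apply _ _⟩
    rw [mem_filter]
    refine ⟨mem_univ _, hv.2.1, ?_⟩
    by_contra h
    rcases (not_lt.1 h).lt_or_eq with h1 | h1
    · have := INC_dec w hw i (w.symm v) h1 hv.2.1.symm
      rw [Equiv.apply_symm_apply] at this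
      exact absurd this (not_lt.2 hv.2.2.le)
    · have h2 : w i = v := by rw [h1, Equiv.apply_symm_apply]
      exact absurd hv.2.2 (by rw [h2]; exact lt_irrefl _)

lemma INC_inj {k n : ℕ} (w w' : Perm (Fin n)) (hw : ¬ Contains w (1 : Perm (Fin (k + 1))))
    (hw' : ¬ Contains w' (1 : Perm (Fin (k + 1)))) (h1 : ∀ i, INC_c k w i = INC_c k w' i)
    (h2 : ∀ v, INC_c k w (w.symm v) = INC_c k w' (w'.symm v)) : w = w' := by
  have key : ∀ (x y : Fin n) (q : ℕ), INC_c k w (w.symm y) = q → x < y →
      (univ.filter fun v : Fin n => INC_c k w (w.symm v) = q ∧ y < v).card <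
      (univ.filter fun v : Fin n => INC_c k w (w.symm v) = q ∧ x < v).card := by
    intro x y q hy hxy
    apply Finset.card_lt_card
    rw [Finset.ssubset_iff_of_subset]
    · refine ⟨y, ?_, ?_⟩
      · rw [mem_filter]; exact ⟨mem_univ _, hy, hxy⟩
      · rw [mem_filter]
        rintro ⟨_, _, h⟩
        exact lt_irrefl _ h
    · intro v hv
      rw [mem_filter] at hv ⊢
      exact ⟨hv.1, hv.2.1, hxy.trans hv.2.2⟩
  ext i
  have h3 := INC_card w hw i
  have h4 := INC_card w' hw' i
  have h2' : ∀ v, INC_c k w (w'.symm v) = INC_c k w (w.symm v) := by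
    intro v
    rw [h1 (w'.symm v)]
    exact (h2 v).symm
  simp only [← h1, h2'] at h4
  have h5 : INC_c k w (w.symm (w i)) = INC_c k w i := by rw [Equiv.symm_apply_apply]
  have h6 : INC_c k w (w.symm (w' i)) = INC_c k w i := by
    rw [h2, Equiv.symm_apply_apply, h1]
  rw [h3] at h4
  rcases lt_trichotomy (w i) (w' i) with h | h | h
  · have := key _ _ _ h6 h
    omega
  · rw [h]
  · have := key _ _ _ h5 h
    omega

/-- Row INC. -/
theorem INC : INC_stmt := by
  intro k n
  unfold avCount
  have h1 : (univ.filter (fun w : Perm (Fin n) => ¬ Contains w (1 : Perm (Fin (k + 1))))).card =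
      Fintype.card {w : Perm (Fin n) // ¬ Contains w (1 : Perm (Fin (k + 1)))} := by
    rw [Fintype.card_subtype]
  rw [h1]
  let F : {w : Perm (Fin n) // ¬ Contains w (1 : Perm (Fin (k + 1)))} → (Fin n → Fin k) × (Fin n → Fin k) :=
    fun w => (fun i => ⟨INC_c k w.1 i, INC_lt w.1 w.2 i⟩,
      fun v => ⟨INC_c k w.1 (w.1.symm v), INC_lt w.1 w.2 _⟩)
  have hF : Function.Injective F := by
    intro w w' hww
    apply Subtype.ext
    rw [Prod.ext_iff] at hww
    apply INC_inj w.1 w'.1 w.2 w'.2
    · intro i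
      have := congrFun hww.1 i
      exact congrArg Fin.val this
    · intro v
      have := congrFun hww.2 v
      exact congrArg Fin.val this
  have h2 := Fintype.card_le_of_injective F hF
  rw [Fintype.card_prod, Fintype.card_fun, Fintype.card_fin, Fintype.card_fin] at h2
  rw [mul_pow]
  exact h2

end Pool.Agent.DSW
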