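import Pool.Agent.helper71.DSW.SpecC

/-!
# Row dsw:NU2
-/

set_option autoImplicit false

namespace Pool.Agent.DSW

open Equiv Finset Function Pool.Agent.helper48.PP
open scoped ENNReal Classical

lemma NU2_gen (θ z B X ε δ : ℝ) (hθ : 0 < θ) (hz : 0 < z) (hB0 : 0 < B) (hB1 : B ≤ 1) (hX : 0 < X)
    (hε : 0 < ε) (hθ2 : 2 * θ < 1) (hδ : 0 < δ)
    (hq : 1 + δ ≤ θ * z * Real.sqrt B * (1 - θ ^ 2) * X) :
    ∃ L₀ : ℕ, ∀ L : ℕ, L₀ ≤ L → (1 / z) ^ (L * L - 1) * (1 / ε) ^ (2 * L) <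
      θ ^ (L * L) * (B ^ (L * (L / 2)) * (1 - 2 * θ) ^ L * (1 - θ ^ 2) ^ (L * L) * X ^ (L * L)) := by
  have hθ1 : 0 < 1 - θ ^ 2 := by nlinarith
  have h2θ : 0 < 1 - 2 * θ := by linarith
  set c : ℝ := (1 - 2 * θ) * ε ^ 2 with hc
  have hc0 : 0 < c := by positivity
  obtain ⟨L1, hL1⟩ := pow_unbounded_of_one_lt (2 / c) (show 1 < 1 + δ by linarith)
  obtain ⟨L2, hL2⟩ := pow_unbounded_of_one_lt z (show (1 : ℝ) < 2 by norm_num)
  refine ⟨max (max L1 L2) 1, ?_⟩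
  intro L hL
  have hLL1 : L1 ≤ L := le_trans (le_trans (le_max_left _ _) (le_max_left _ _)) hL
  have hLL2 : L2 ≤ L := le_trans (le_trans (le_max_right _ _) (le_max_left _ _)) hL
  have hL01 : 1 ≤ L := le_trans (le_max_right _ _) hL
  have hLL : 1 ≤ L * L := Nat.mul_pos hL01 hL01
  set s : ℝ := Real.sqrt B with hs
  have hs0 : 0 < s := Real.sqrt_pos.2 hB0
  have hs1 : s ≤ 1 := Real.sqrt_le_one.2 hB1
  have hs2 : s ^ 2 = B := Real.sq_sqrt hB0.le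
  set q : ℝ := θ * z * s * (1 - θ ^ 2) * X with hqdef
  -- the power of B
  have h1 : s ^ (L * L) ≤ B ^ (L * (L / 2)) := by
    rw [← hs2, ← pow_mul]
    apply pow_le_pow_of_le_one hs0.le hs1
    have := Nat.div_mul_le_self L 2
    nlinarith
  have h2 : (q / z) ^ (L * L) * (1 - 2 * θ) ^ L ≤
      θ ^ (L * L) * (B ^ (L * (L / 2)) * (1 - 2 * θ) ^ L * (1 - θ ^ 2) ^ (L * L) * X ^ (L * L)) := by
    have h3 : q / z = θ * s * (1 - θ ^ 2) * X := by rw [hqdef]; field_simp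
    rw [h3, mul_pow, mul_pow, mul_pow]
    have h4 : θ ^ (L * L) * s ^ (L * L) * (1 - θ ^ 2) ^ (L * L) * X ^ (L * L) * (1 - 2 * θ) ^ L =
        s ^ (L * L) * (θ ^ (L * L) * (1 - θ ^ 2) ^ (L * L) * X ^ (L * L) * (1 - 2 * θ) ^ L) := by ring
    have h5 : θ ^ (L * L) * (B ^ (L * (L / 2)) * (1 - 2 * θ) ^ L * (1 - θ ^ 2) ^ (L * L) * X ^ (L * L)) =
        B ^ (L * (L / 2)) * (θ ^ (L * L) * (1 - θ ^ 2) ^ (L * L) * X ^ (L * L) * (1 - 2 * θ) ^ L) := by ring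
    rw [h4, h5]
    exact mul_le_mul_of_nonneg_right h1 (by positivity)
  refine lt_of_lt_of_le ?_ h2
  -- the other side
  have h6 : (1 / z) ^ (L * L - 1) = z * (1 / z) ^ (L * L) := by
    have h7 : (1 / z) ^ (L * L) = (1 / z) ^ (L * L - 1) * (1 / z) := by
      rw [← pow_succ, Nat.sub_add_cancel hLL]
    rw [h7]
    field_simp
  have h8 : z < (q ^ L * c) ^ L := by
    have h9 : 2 ≤ q ^ L * c := by
      have h10 : (1 + δ) ^ L1 ≤ q ^ L :=
        (pow_le_pow_right₀ (by linarith) hLL1).trans (pow_le_pow_left₀ (by linarith) hq L)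
      have h11 : 2 / c ≤ q ^ L := hL1.le.trans h10
      rwa [div_le_iff₀ hc0] at h11
    have h12 : (2 : ℝ) ^ L2 ≤ (q ^ L * c) ^ L :=
      (pow_le_pow_right₀ (by norm_num) hLL2).trans (pow_le_pow_left₀ (by norm_num) h9 L)
    linarith
  have h13 : (q ^ L * c) ^ L = q ^ (L * L) * ((1 - 2 * θ) ^ L * ε ^ (2 * L)) := by
    have h20 : ∀ a b e f : ℝ, ∀ m : ℕ, (a ^ m * (b * e ^ 2)) ^ m = a ^ (m * m) * (b ^ m * e ^ (2 * m)) := by
      intro a b e f m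
      rw [mul_pow, mul_pow, ← pow_mul, ← pow_mul]
    exact h20 q (1 - 2 * θ) ε 0 L
  rw [h13] at h8
  rw [h6, div_pow q z]
  have hzp : 0 < z ^ (L * L) := by positivity
  have hεp : 0 < ε ^ (2 * L) := by positivity
  have h14 : z * (1 / z) ^ (L * L) * (1 / ε) ^ (2 * L) = z / (z ^ (L * L) * ε ^ (2 * L)) := by
    rw [div_pow, div_pow, one_pow, one_pow]
    field_simp
  have h15 : q ^ (L * L) / z ^ (L * L) * (1 - 2 * θ) ^ L =
      (q ^ (L * L) * ((1 - 2 * θ) ^ L * ε ^ (2 * L))) / (z ^ (L * L) * ε ^ (2 * L)) := by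
    field_simp
  rw [h14, h15]
  exact div_lt_div_of_pos_right h8 (by positivity)

/-- Row NU2. -/
theorem NU2 (hNU1 : NU1_stmt) : NU2_stmt := by
  obtain ⟨_, hz, he0, _, hq⟩ := hNU1
  have hth : 0 < th := by unfold th; positivity
  have hth2 : th ≤ 1 / 1000 := by unfold th; norm_num
  have hB0 : 0 < 1 - 4 * th + 17 * th ^ 2 - 763 * th ^ 3 := by
    have h1 : 763 * th ^ 3 ≤ 763 / 1000 * th ^ 2 := by
      have := mul_le_mul_of_nonneg_left hth2 (sq_nonneg th)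
      nlinarith
    nlinarith [sq_nonneg th]
  have hB1 : 1 - 4 * th + 17 * th ^ 2 - 763 * th ^ 3 ≤ 1 := by
    have h1 : 0 < th ^ 3 := by positivity
    have h2 : th ^ 2 ≤ th * (1 / 1000) := by
      rw [sq]; exact mul_le_mul_of_nonneg_left hth2 hth.le
    nlinarith
  exact NU2_gen th zz _ _ ee (th ^ 2 / 10) hth (by linarith) hB0 hB1 (Real.exp_pos _) he0 (by linarith)
    (by positivity) hq

end Pool.Agent.DSW
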