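import Pool.Agent.helper71.DSW.SpecA

/-!
# Row dsw:PIM
-/

set_option autoImplicit false

namespace Pool.Agent.DSW

open Equiv Finset Function Pool.Agent.helper48.PP
open scoped ENNReal Classical

/-- Row PIM. -/
theorem PIM : PIM_stmt := by
  intro n l A w X Y hl hX hY hA hXw hYw hM
  obtain ⟨a, b, c, d, hab, hba, hcd, hdc, hbox⟩ := hM
  have hbox' : ∀ r s : Fin (3 * l), ∃ i : Fin n, a r ≤ (i : ℕ) ∧ (i : ℕ) ≤ b r ∧ c s ≤ (w i : ℕ) ∧
      (w i : ℕ) ≤ d s := by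
    intro r s
    obtain ⟨z, ⟨i, rfl⟩, h1, h2, h3, h4⟩ := hbox r s
    exact ⟨i, h1, h2, h3, h4⟩
  let e : Fin l → Fin 3 → Fin (3 * l) := fun r k => ⟨3 * (r : ℕ) + (k : ℕ), by
    have := r.2; have := k.2; omega⟩
  let o0 : Fin (3 * l) := ⟨0, by omega⟩
  let o1 : Fin (3 * l) := ⟨1, by omega⟩
  have h01 : o0 < o1 := by rw [Fin.lt_def]; exact Nat.zero_lt_one
  have ha : ∀ r, a r < n := by
    intro r
    obtain ⟨i, h1, _⟩ := hbox' r o0
    exact lt_of_le_of_lt h1 i.2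
  have hc : ∀ s, c s < n := by
    intro s
    obtain ⟨i, _, _, h1, _⟩ := hbox' o0 s
    exact lt_of_le_of_lt h1 (w i).2
  have hn : 0 < n := lt_of_le_of_lt (Nat.zero_le _) (ha o0)
  let lo : Fin (3 * l) → Fin n := fun r => ⟨a r, ha r⟩
  let hi : Fin (3 * l) → Fin n := fun r => ⟨min (b r) (n - 1), by omega⟩
  let lo' : Fin (3 * l) → Fin n := fun r => ⟨c r, hc r⟩
  let hi' : Fin (3 * l) → Fin n := fun r => ⟨min (d r) (n - 1), by omega⟩
  have hlohi : ∀ r, lo r ≤ hi r := by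
    intro r
    rw [Fin.le_def]
    have h1 := hab r
    have h2 := ha r
    show a r ≤ min (b r) (n - 1)
    omega
  have hlohi' : ∀ r, lo' r ≤ hi' r := by
    intro r
    rw [Fin.le_def]
    have h1 := hcd r
    have h2 := hc r
    show c r ≤ min (d r) (n - 1)
    omega
  have hhilo : ∀ r s, r < s → hi r < lo s := by
    intro r s hrs
    rw [Fin.lt_def]
    have h1 := hba r s hrs
    show min (b r) (n - 1) < a s
    omega
  have hhilo' : ∀ r s, r < s → hi' r < lo' s := by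
    intro r s hrs
    rw [Fin.lt_def]
    have h1 := hdc r s hrs
    show min (d r) (n - 1) < c s
    omega
  have hpt : ∀ r s : Fin (3 * l), ∃ i : Fin n, lo r ≤ i ∧ i ≤ hi r ∧ lo' s ≤ w i ∧ w i ≤ hi' s := by
    intro r s
    obtain ⟨i, h1, h2, h3, h4⟩ := hbox' r s
    have h5 := i.2
    have h6 := (w i).2
    refine ⟨i, ?_, ?_, ?_, ?_⟩
    · rw [Fin.le_def]; exact h1
    · rw [Fin.le_def]; show (i : ℕ) ≤ min (b r) (n - 1); omega
    · rw [Fin.le_def]; exact h3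
    · rw [Fin.le_def]; show (w i : ℕ) ≤ min (d s) (n - 1); omega
  refine ⟨fun r => X (lo (e r 0)), fun r => X (hi (e r 0)), fun r => Y (lo' (e r 0)),
    fun r => Y (hi' (e r 0)), ?_, ?_, ?_, ?_, ?_⟩
  · intro r; exact hX (hlohi _)
  · intro r s hrs
    by_contra hcon
    rw [Fin.lt_def] at hrs
    have hcon' : X (lo (e s 0)) ≤ X (hi (e r 0)) := not_lt.1 hcon
    have e01 : e r 0 < e r 1 := by rw [Fin.lt_def]; show 3 * (r : ℕ) + 0 < 3 * (r : ℕ) + 1; omega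
    have e12 : e r 1 < e r 2 := by rw [Fin.lt_def]; show 3 * (r : ℕ) + 1 < 3 * (r : ℕ) + 2; omega
    have e20 : e r 2 < e s 0 := by rw [Fin.lt_def]; show 3 * (r : ℕ) + 2 < 3 * (s : ℕ) + 0; omega
    obtain ⟨i, h1, h2, h3, h4⟩ := hpt (e r 1) o1
    obtain ⟨i', h1', h2', h3', h4'⟩ := hpt (e r 2) o0
    have hii : i < i' := lt_of_le_of_lt h2 (lt_of_lt_of_le (hhilo _ _ e12) h1')
    have hXi : X i = X i' := by
      apply le_antisymm (hX hii.le)
      calc X i' ≤ X (lo (e s 0)) := hX (h2'.trans (hhilo _ _ e20).le)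
        _ ≤ X (hi (e r 0)) := hcon'
        _ ≤ X i := hX ((hhilo _ _ e01).le.trans h1)
    have h5 := hXw i i' hii hXi
    have h6 : w i' < w i := lt_of_le_of_lt h4' (lt_of_lt_of_le (hhilo' _ _ h01) h3)
    exact absurd h5 (not_lt.2 h6.le)
  · intro r; exact hY (hlohi' _)
  · intro r s hrs
    by_contra hcon
    rw [Fin.lt_def] at hrs
    have hcon' : Y (lo' (e s 0)) ≤ Y (hi' (e r 0)) := not_lt.1 hcon
    have e01 : e r 0 < e r 1 := by rw [Fin.lt_def]; show 3 * (r : ℕ) + 0 < 3 * (r : ℕ) + 1; omega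
    have e12 : e r 1 < e r 2 := by rw [Fin.lt_def]; show 3 * (r : ℕ) + 1 < 3 * (r : ℕ) + 2; omega
    have e20 : e r 2 < e s 0 := by rw [Fin.lt_def]; show 3 * (r : ℕ) + 2 < 3 * (s : ℕ) + 0; omega
    obtain ⟨i, h1, h2, h3, h4⟩ := hpt o1 (e r 1)
    obtain ⟨i', h1', h2', h3', h4'⟩ := hpt o0 (e r 2)
    have hii : w i < w i' := lt_of_le_of_lt h4 (lt_of_lt_of_le (hhilo' _ _ e12) h3')
    have hYi : Y (w i) = Y (w i') := by
      apply le_antisymm (hY hii.le)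
      calc Y (w i') ≤ Y (lo' (e s 0)) := hY (h4'.trans (hhilo' _ _ e20).le)
        _ ≤ Y (hi' (e r 0)) := hcon'
        _ ≤ Y (w i) := hY ((hhilo' _ _ e01).le.trans h3)
    have h5 := hYw i i' hii hYi
    have h6 : i' < i := lt_of_le_of_lt h2' (lt_of_lt_of_le (hhilo _ _ h01) h1)
    exact absurd h5 (not_lt.2 h6.le)
  · intro r s
    obtain ⟨i, h1, h2, h3, h4⟩ := hpt (e r 0) (e s 0)
    exact ⟨(X i, Y (w i)), hA i, hX h1, hX h2, hY h3, hY h4⟩

end Pool.Agent.DSW
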