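import Pool.Agent.helper71.DSW.SpecB

/-!
# Row dsw:RUN
-/

set_option autoImplicit false

namespace Pool.Agent.DSW

open Equiv Finset Function Pool.Agent.helper48.PP
open scoped ENNReal Classical

/-- The possible places of the points in `Q`. -/
noncomputable def RUN_U {L : ℕ} (g : Fin (L + 1) → ℕ) (Q : Finset (Fin L)) : Finset ℕ :=
  (adg Q).biUnion (fun j => Finset.Ico (pos g (j : ℕ) - g j) (pos g (j : ℕ))) ∪
    Q.image (fun i : Fin L => pos g (i : ℕ))

lemma RUN_card {L : ℕ} (g : Fin (L + 1) → ℕ) (Q : Finset (Fin L)) :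
    (RUN_U g Q).card ≤ (∑ j ∈ adg Q, g j) + Q.card := by
  unfold RUN_U
  refine (card_union_le _ _).trans (add_le_add ?_ card_image_le)
  refine card_biUnion_le.trans (sum_le_sum fun j _ => ?_)
  rw [Nat.card_Ico]
  omega

lemma RUN_mem (hPOS : POS_stmt) {L : ℕ} (g : Fin (L + 1) → ℕ) (Q : Finset (Fin L)) (s : Fin L → ℕ)
    (hs : StrictMono s) (hQ : ∀ i ∉ Q, s i = pos g (i : ℕ)) (i : Fin L) (hi : i ∈ Q)
    (hlt : s i < pos g L) : s i ∈ RUN_U g Q := by
  obtain ⟨h0, hsucc, _⟩ := hPOS.1 L g
  have hex : ∃ j, s i ≤ pos g j := ⟨L, hlt.le⟩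
  have hjL : Nat.find hex ≤ L := Nat.find_min' hex hlt.le
  have h1 := Nat.find_spec hex
  set j := Nat.find hex with hj
  have hlow : ∀ m, m < j → pos g m < s i := fun m hm => not_le.1 (Nat.find_min hex hm)
  unfold RUN_U
  rw [mem_union]
  rcases h1.lt_or_eq with h2 | h2
  · -- in a gap
    left
    rw [mem_biUnion]
    refine ⟨⟨j, by omega⟩, ?_, ?_⟩
    · -- adjacent to a point of Q
      unfold adg
      rw [mem_union, mem_image, mem_image]
      by_contra hcon
      push Not at hcon
      obtain ⟨hc1, hc2⟩ := hcon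
      rcases Nat.lt_or_ge (i : ℕ) j with h3 | h3
      · have hj1 : j - 1 < L := by omega
        have hq : (⟨j - 1, hj1⟩ : Fin L) ∉ Q := by
          intro hq
          apply hc2 _ hq
          apply Fin.ext
          show j - 1 + 1 = j
          omega
        have h4 := hQ _ hq
        have h5 := hlow (j - 1) (by omega)
        have h6 : s i ≤ s ⟨j - 1, hj1⟩ := by
          apply hs.monotone
          rw [Fin.le_def]
          show (i : ℕ) ≤ j - 1
          omega
        rw [h4] at h6
        exact absurd h5 (not_lt.2 h6)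
      · have hj1 : j < L := lt_of_le_of_lt h3 i.2
        have hq : (⟨j, hj1⟩ : Fin L) ∉ Q := by
          intro hq
          apply hc1 _ hq
          apply Fin.ext
          rfl
        have h4 := hQ _ hq
        have h6 : s ⟨j, hj1⟩ ≤ s i := by
          apply hs.monotone
          rw [Fin.le_def]
          exact h3
        rw [h4] at h6
        exact absurd h2 (not_lt.2 h6)
    · rw [mem_Ico]
      refine ⟨?_, h2⟩
      show pos g j - g ⟨j, _⟩ ≤ s i
      rcases Nat.eq_zero_or_pos j with h3 | h3
      · have h4 : (⟨j, by omega⟩ : Fin (L + 1)) = 0 := Fin.ext h3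
        rw [h4, h3, h0]
        omega
      · have hj1 : j - 1 < L := by omega
        have h5 := hsucc ⟨j - 1, hj1⟩
        have h6 : (⟨j - 1, hj1⟩ : Fin L).succ = ⟨j, by omega⟩ := by
          apply Fin.ext
          show j - 1 + 1 = j
          omega
        have h7 : ((⟨j - 1, hj1⟩ : Fin L) : ℕ) + 1 = j := by
          show j - 1 + 1 = j
          omega
        rw [h6, h7] at h5
        have h8 := hlow (j - 1) (by omega)
        have h9 : pos g ((⟨j - 1, hj1⟩ : Fin L) : ℕ) = pos g (j - 1) := rfl
        omega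
  · -- a point
    right
    rw [mem_image]
    have hj1 : j < L := by
      rcases hjL.lt_or_eq with h3 | h3
      · exact h3
      · rw [h3] at h2
        omega
    refine ⟨⟨j, hj1⟩, ?_, h2.symm⟩
    by_contra hq
    have h4 := hQ _ hq
    have h5 : s ⟨j, hj1⟩ = s i := by rw [h4, h2]
    have h6 := hs.injective h5
    rw [h6] at hq
    exact hq hi

/-- Row RUN. -/
theorem RUN (hPOS : POS_stmt) : RUN_stmt := by
  intro L g Q
  have h1 : ((Fintype.piFinset fun _ : Fin L => Finset.range (pos g L)).filter
      fun s => StrictMono s ∧ ∀ i ∉ Q, s i = pos g (i : ℕ)).card ≤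
      ((RUN_U g Q).powersetCard Q.card).card := by
    apply Finset.card_le_card_of_injOn (fun s => Q.image s)
    · intro s hs
      rw [mem_coe, mem_filter, Fintype.mem_piFinset] at hs
      rw [mem_coe, mem_powersetCard]
      refine ⟨?_, card_image_of_injective _ hs.2.1.injective⟩
      intro x hx
      rw [mem_image] at hx
      obtain ⟨i, hi, rfl⟩ := hx
      exact RUN_mem hPOS g Q s hs.2.1 hs.2.2 i hi (mem_range.1 (hs.1 i))
    · intro s hs s' hs' hss
      rw [mem_coe, mem_filter, Fintype.mem_piFinset] at hs hs'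
      have h2 : StrictMono (fun i : Q => s i) := fun i j hij => hs.2.1 hij
      have h3 : StrictMono (fun i : Q => s' i) := fun i j hij => hs'.2.1 hij
      have h4 : Set.range (fun i : Q => s i) = Set.range (fun i : Q => s' i) := by
        have h5 : ∀ t : Fin L → ℕ, Set.range (fun i : Q => t i) = ((Q.image t : Finset ℕ) : Set ℕ) := by
          intro t
          ext x
          simp
        rw [h5, h5]
        exact congrArg _ hss
      have h6 := (StrictMono.range_inj h2 h3).1 h4
      funext i
      by_cases hi : i ∈ Q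
      · exact congrFun h6 ⟨i, hi⟩
      · rw [hs.2.2 i hi, hs'.2.2 i hi]
  refine h1.trans ?_
  rw [card_powersetCard]
  exact Nat.choose_le_choose _ (RUN_card g Q)

end Pool.Agent.DSW
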